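import Mathlib
import Pool.Agent.Helper11.HMain

namespace Pool.Agent.Results.MP_a09a03_nt.ArrangementAllDimensions

open Pool.Agent.Helper11

theorem result (n N : ℕ) (α : Fin N → Fin (n + 1) → ℤ) (β : Fin N → ℤ) (c Δ : ℤ)
    (hgp : ∀ J k, hypDet α J ≠ 0 → (∀ m, J m ≠ k) → hypVal α β J k ≠ 0)
    (hΔ0 : Δ ≠ 0) (hΔ : ∀ J, hypDet α J ≠ 0 → hypDet α J ∣ Δ) (hΔc : Δ ^ (N + 1) ∣ c)
    (hc : (100 * (n + 1) * 2 ^ n * N ^ (n + 2)) ^ (n + 1) * |Δ| ^ (N + 1) ≤ |c|) :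
    ∃ (L : Fin N → (HypRing α β c)ˣ) (D : (Fin (n + 1) → Fin N) → (HypRing α β c)ˣ),
      (∀ i, (L i : HypRing α β c) = hypForm α β c i) ∧
      (∀ J, hypDet α J ≠ 0 → (D J : HypRing α β c) = hypDet α J) ∧
      (∀ z ∈ hypCycles α, Unramified (cycleClass L D z)) ∧
      ∃ R : {J // hypDet α J ≠ 0} → (KMQ (HypRing α β c) (n + 1) →ₗ[ℚ] ℝ),
        (∀ J, IsTorusRegulator (R J)) ∧
        ∀ (r : ℕ) (z : Fin r → hypCycles α), LinearIndependent ℚ z →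
          LinearIndependent ℝ fun a J => R J (cycleClass L D (z a)) :=
  hyp_main hgp hΔ0 hΔ hΔc hc

end Pool.Agent.Results.MP_a09a03_nt.ArrangementAllDimensions
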