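import Mathlib
import Pool.Agent.CS2.EpM

namespace Pool.Agent.Results.MP_a09a03_nt.EveryPair

open Pool.Agent.ISG Pool.Agent.CST Pool.Agent.CS2

theorem result (K : Type) [Field K] [CharZero K]
    (hc : ∀ a : K, IsAlgebraic ℚ a → ∃ q : ℚ, (q : K) = a) (g₁ g₂ : Kˣ)
    (hK : FiniteDimensional (IntermediateField.adjoin ℚ {(g₁ : K)}) K)
    (ht : IntermediateField.adjoin ℚ {(g₁ : K), (g₂ : K)} = ⊤)
    (hp : ∀ p : ℕ, p.Prime → ∀ (a₁ a₂ : ℤ) (c : ℚ) (h : K),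
      (g₁ : K) ^ a₁ * (g₂ : K) ^ a₂ = (c : K) * h ^ p → (p : ℤ) ∣ a₁ ∧ (p : ℤ) ∣ a₂) :
    Module.Finite ℚ ↥((slice g₁ ⊔ slice g₂) ⊓ unramifiedK2 K ⊓ invPart g₁ g₂) ∧
      Module.Finite ℚ ↥((slice g₁ ⊔ slice g₂) ⊓ integralK2 K ⊓ invPart g₁ g₂) := by
  have h1 := ep_main hc hK ht hp
  refine ⟨h1, ?_⟩
  have h2 : (slice g₁ ⊔ slice g₂) ⊓ integralK2 K ⊓ invPart g₁ g₂ ≤
      (slice g₁ ⊔ slice g₂) ⊓ unramifiedK2 K ⊓ invPart g₁ g₂ :=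
    inf_le_inf_right _ (inf_le_inf_left _ (integral_le K))
  exact Module.Finite.of_injective (Submodule.inclusion h2) (Submodule.inclusion_injective h2)

end Pool.Agent.Results.MP_a09a03_nt.EveryPair
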