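import Mathlib
import Pool.Agent.BPG.Defs
import Pool.Agent.HYG.Main

namespace Pool.Agent.Results.MP_a09a03_nt.HyperellipticIso

open Pool.Agent.Helper11 BPG HYF HYG Polynomial

theorem result (r : ℕ) (P : Fin (r + 1) → ℤ[X]) (hm : ∀ i, (P i).Monic)
    (hi : ∀ i, Irreducible (P i)) (hd : Function.Injective P)
    (e : Fin (r + 1) → ℕ) (he : ∀ i, e i ≠ 0) (c κ ε : ℤ) (hc : c ≠ 0)
    (hκ : (ε = 1 ∧ |κ| ≤ 2) ∨ (ε = -1 ∧ κ = 0))
    (K : Type) [Field K] [CharZero K] (x w : K) (hx : Transcendental ℚ x)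
    (hK : IntermediateField.adjoin ℚ {x, w} = ⊤)
    (h : w + ε * w⁻¹ = c * ∏ i, (aeval x (P i)) ^ e i + κ) :
    ∃ (u : Fin r → Kˣ) (v : Kˣ), (v : K) = w ∧
      (∀ i, (u i : K) = aeval x (P i.succ) ^ (P 0).natDegree /
        aeval x (P 0) ^ (P i.succ).natDegree) ∧
      intSlice (avoidGroup P (C c * ∏ i, P i ^ e i + C κ) ε x) x v =
        Submodule.span ℚ (Set.range fun i => sym (u i) v) ∧
      (TwoPrimes (∑ i, e i * (P i).natDegree) c →
        intSlice (ratGroup x) x v = Submodule.span ℚ (Set.range fun i => sym (u i) v)) ∧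
      ∃ (n : ℕ) (R : Fin n → (K2Q K →ₗ[ℚ] ℝ)),
        (∀ j, ∃ γ : K →+* LoopRing, ∀ f g : Kˣ,
          R j (sym f g) = regInt (γ (f : K) : ℝ → ℂ) (γ (g : K) : ℝ → ℂ)) ∧
        genus (disc P e c κ ε) ≤ Module.finrank ℝ (Submodule.span ℝ
            (Set.range fun (i : Fin r) (j : Fin n) => R j (sym (u i) v))) +
          ∑ i, ((P i).natDegree * (if |κ| = 2 then (e i + 1) / 2 else e i) - 1) :=
  HYG.main hm hi hd he hc hκ hx hK h

end Pool.Agent.Results.MP_a09a03_nt.HyperellipticIso
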